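import Pool.Agent.U731.WH.Cn

/-!
# Dennis traces with torsion-free coefficients for groups built by wreath products and amalgams

Let `Built base` be the smallest class of groups which contains the groups in `base` and is closed
under the following constructions: (a) groups in which every element `g ≠ 1` is detected by a
homomorphism to a group of the class (subgroups, arbitrary cartesian products, residual closure);
(b) groups all of whose finitely generated subgroups are in the class; (c) restricted permutational
wreath products (and their subgroups), for actions with isolated stabilisers, for example the regular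
one; (d) amalgamated products `P` of arbitrary families which have a homomorphism to a group of the
class that is injective on the factors and maps the amalgamated subgroup to an isolated subgroup, for
example free products, or products of a group with itself along an isolated subgroup.

The groups in `base` are: (i) the torsion-free groups with commutative centralisers of the elements
`≠ 1` in which, for finitely generated subgroups `H` and `c ≠ 1` in `H`, `c` is an `l`-th power in `H`
for finitely many primes `l` only; (ii) the groups of piecewise linear homeomorphisms of the line with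
compact support; (iii) the torsion-free groups of formal diffeomorphisms in one variable in
characteristic zero; (iv) the torsion-free subgroups of `SL₂` over fields; (v) the linear groups over
fields, of any dimension, without unipotent elements `≠ 1`, in which `l`-th roots are unique for all `l`.

For every `Γ` in the class and every invertible matrix `A` over `ℤΓ` there is one `γ ∈ Γ` such that
all Hochschild `1`-cocycles with values in torsion-free abelian groups take the same value on `A`
and on `γ`: the Dennis traces of `A` and `γ` in `HH₁(ℤΓ)` agree modulo torsion. In particular the class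
of `A` in the Whitehead group of `Γ` is mapped to zero by the Dennis trace with rational coefficients.
-/

set_option autoImplicit false

namespace Pool.Agent.Results.MP_16fe43_al.MixedClosureDennisTrace

open Pool.Agent.U731.WH Monoid

universe v

/-- The smallest class of groups which contains the groups in `base` and is closed under the
constructions (a) `residual`, (b) `locally`, (c) `wreath`, (d) `amalgam`. -/
inductive Built (base : ∀ (Γ : Type) [Group Γ], Prop) : ∀ (Γ : Type) [Group Γ], Prop
  | of_base (Γ : Type) [Group Γ] (h : base Γ) : Built base Γ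
  /-- every `g ≠ 1` is detected by a homomorphism to a group of the class -/
  | residual (Γ : Type) [Group Γ] (ι : Type) (Q : ι → Type) [∀ i, Group (Q i)]
      (π : ∀ i, Γ →* Q i) (hπ : ∀ g : Γ, g ≠ 1 → ∃ i, π i g ≠ 1) (hQ : ∀ i, Built base (Q i)) :
      Built base Γ
  /-- the finitely generated subgroups are in the class -/
  | locally (Γ : Type) [Group Γ] (h : ∀ H : Subgroup Γ, H.FG → Built base H) : Built base Γ
  /-- subgroups of restricted permutational wreath products: `B` acts on `X`, the stabilisers are
  isolated, and `γ ↦ (h γ, π γ)` is an injective homomorphism to the wreath product of `G` and `B`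
  along `X`, all functions `h γ : X → G` having finite support -/
  | wreath (Γ G X B : Type) [Group Γ] [Group G] [Group B] [MulAction B X]
      (hiso : ∀ (b : B) (x : X) (l : ℕ), l ≠ 0 → b ^ l • x = x → b • x = x)
      (π : Γ →* B) (h : Γ → X → G)
      (hmul : ∀ (g g' : Γ) (x : X), h (g * g') x = h g x * h g' ((π g)⁻¹ • x))
      (hinj : ∀ g : Γ, π g = 1 → (∀ x, h g x = 1) → g = 1)
      (hfin : ∀ g : Γ, {x | h g x ≠ 1}.Finite)
      (hG : Built base G) (hB : Built base B) : Built base Γ
  /-- amalgamated products of the groups `G i` along the injective homomorphisms `φ i : H → G i`,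
  with a homomorphism `ψ` to a group `Q` of the class which is injective on the factors and maps `H`
  to an isolated subgroup of `Q` -/
  | amalgam (ι : Type) [Nonempty ι] (G : ι → Type) [∀ i, Group (G i)] (H : Type) [Group H]
      (φ : ∀ i, H →* G i) (hφ : ∀ i, Function.Injective (φ i)) (Q : Type) [Group Q]
      (ψ : PushoutI φ →* Q) (hψ : ∀ i, Function.Injective (ψ.comp (PushoutI.of (φ := φ) i)))
      (hiso : ∀ (q : Q) (l : ℕ), l ≠ 0 → (∃ h : H, ψ (PushoutI.base φ h) = q ^ l) →
        ∃ h : H, ψ (PushoutI.base φ h) = q)
      (hQ : Built base Q) : Built base (PushoutI φ)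

/-- the only element of finite order is the identity -/
def TorsionFree (Γ : Type) [Group Γ] : Prop := ∀ g : Γ, ∀ m : ℕ, m ≠ 0 → g ^ m = 1 → g = 1

/-- piecewise linear with finitely many pieces, with compact support -/
def PiecewiseLinear (f : ℝ ≃o ℝ) : Prop :=
  (∃ s : Finset ℝ, ∀ x y : ℝ, x < y → (∀ t ∈ s, t ≤ x ∨ y ≤ t) →
    ∃ a b : ℝ, ∀ z, x ≤ z → z ≤ y → f z = a * z + b) ∧
  ∃ r : ℝ, ∀ x : ℝ, r ≤ |x| → f x = x

/-- (i) torsion-free groups with commutative centralisers and finite divisibility in the finitely
generated subgroups, (ii) groups of piecewise linear homeomorphisms, (iii) torsion-free groups of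
formal diffeomorphisms, (iv) torsion-free groups of matrices of size two and determinant one,
(v) linear groups with unique roots and without unipotent elements `≠ 1` -/
def Base (Γ : Type) [Group Γ] : Prop :=
  (TorsionFree Γ ∧
    (∀ c : Γ, c ≠ 1 → ∀ x y : Γ, x * c = c * x → y * c = c * y → x * y = y * x) ∧
    ∀ H : Subgroup Γ, H.FG → ∀ c ∈ H, c ≠ 1 → {l : ℕ | l.Prime ∧ ∃ x ∈ H, x ^ l = c}.Finite) ∨
  (∃ ρ : Γ →* (ℝ ≃o ℝ), Function.Injective ρ ∧ ∀ x, PiecewiseLinear (ρ x)) ∨
  (TorsionFree Γ ∧ ∃ (K : Type) (_ : Field K) (_ : CharZero K)
    (ρ : Γ →* (PowerSeries K ≃ₐ[K] PowerSeries K)), Function.Injective ρ) ∨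
  (TorsionFree Γ ∧ ∃ (K : Type) (_ : Field K) (ρ : Γ →* Matrix.SpecialLinearGroup (Fin 2) K),
    Function.Injective ρ) ∨
  ((∀ l : ℕ, l ≠ 0 → ∀ x y : Γ, x ^ l = y ^ l → x = y) ∧
    ∃ (K : Type) (_ : Field K) (N : ℕ) (ρ : Γ →* GL (Fin N) K),
      ∀ g : Γ, g ≠ 1 → ¬ IsNilpotent ((ρ g).val - 1))

/-- the property passes to the class -/
theorem pp_of_built {T : Tgt} (hT : T ℤ) {base : ∀ (Γ : Type) [Group Γ], Prop}
    (hbase : ∀ (Γ : Type) [Group Γ], base Γ → PP T Γ) (Γ : Type) [inst : Group Γ]
    (h : Built base Γ) : PP T Γ := by
  induction h with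
  | of_base Γ h => exact hbase Γ h
  | residual Γ ι Q π hπ _ ih =>
    apply PP.residual
    intro g hg
    obtain ⟨i, hi⟩ := hπ g hg
    exact ⟨Q i, inferInstance, π i, ih i, hi⟩
  | locally Γ _ ih => exact PP.local ih
  | wreath Γ G X B hiso π h hmul hinj hfin _ _ ihG ihB =>
    let φ : Γ →* PW G X B :=
      { toFun := fun g => ⟨h g, π g⟩
        map_one' := by
          have h1 : ∀ x, h 1 x = 1 := by
            intro x
            have h2 := hmul 1 1 x
            rw [one_mul, map_one, inv_one, one_smul] at h2
            exact mul_eq_left.1 h2.symm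
          apply PW.ext
          · funext x
            exact h1 x
          · exact map_one π
        map_mul' := fun g g' => by
          apply PW.ext
          · funext x
            exact hmul g g' x
          · exact map_mul π g g' }
    apply PP.wreath ihG ihB hiso φ _ hfin
    rw [injective_iff_map_eq_one]
    intro g hg
    apply hinj g
    · exact congrArg PW.right hg
    · intro x
      exact congrArg (fun a : PW G X B => a.left x) hg
  | amalgam ι G H φ hφ Q ψ hψ hiso _ ih =>
    apply PP.amalgam hT hφ ih ψ hψ
    intro q l hl hq
    obtain ⟨h, hh⟩ := hq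
    obtain ⟨h', hh'⟩ := hiso q l hl ⟨h, hh⟩
    exact ⟨h', hh'⟩

theorem pp_base (Γ : Type) [Group Γ] (h : Base Γ) : PP T2 Γ := by
  rcases h with ⟨htf, hce, hfd⟩ | ⟨ρ, hρ, h⟩ | ⟨htf, K, _, _, ρ, hρ⟩ | ⟨htf, K, _, ρ, hρ⟩ |
    ⟨hroots, K, _, N, ρ, hu⟩
  · exact PP.ct htf hce hfd
  · exact (PP.pl ρ hρ h).mono
  · exact PP.formal ρ hρ htf
  · refine PP.sl_two ((Matrix.SpecialLinearGroup.toGL).comp ρ) ?_ ?_ htf
    · exact Matrix.SpecialLinearGroup.toGL_injective.comp hρ
    · intro g
      exact (ρ g).2
  · exact (PP.linear ρ hu hroots).mono

/-- The expression `∑ i, ∑ j, ∑ g, ∑ h, (A⁻¹) i j g * A j i h • f g h` is the value of the cocycle `f`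
on the Dennis trace of `A`; `f γ⁻¹ γ` is its value on the Dennis trace of the group element `γ`. -/
theorem result (Γ : Type) [Group Γ] (hΓ : Built Base Γ) {n : ℕ}
    (A : (Matrix (Fin n) (Fin n) (MonoidAlgebra ℤ Γ))ˣ) :
    ∃ γ : Γ, ∀ (M : Type v) [AddCommGroup M], (∀ (k : ℕ) (x : M), k ≠ 0 → k • x = 0 → x = 0) →
      ∀ (f : Γ → Γ → M), (∀ x y z : Γ, f (x * y) z - f x (y * z) + f (z * x) y = 0) →
        (∑ i, ∑ j, ((A⁻¹).val i j).coeff.sum fun g b =>
            (A.val j i).coeff.sum fun h a => (b * a) • f g h) = f γ⁻¹ γ :=
  main_rat.{0, v, 0} (pp_of_built T2_int pp_base Γ hΓ).good A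

end Pool.Agent.Results.MP_16fe43_al.MixedClosureDennisTrace
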