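import Pool.Agent.U181.TG.Low

/-!
# One countable test group, and a finitary form, for the vanishing of the low `K`-groups

The vanishing of the Whitehead group, of the reduced projective class group and of all negative
`K`-groups of the integral group rings of all torsion-free groups is equivalent to the vanishing of the
first two for one countable torsion-free group, and to a finitary statement on groups without small
torsion. Likewise for classes of groups closed under subgroups and direct products, and for the limits of
finite groups.

`KN ℤ m G` is Bass's group `K_{-m}(ℤ[G])` (functors `K0F`, `contr`, `Kneg` of the starting library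
`Pool/Agent/Y75/NK/K0.lean`). `LowK Γ`: the three vanishing statements for `Γ`; `WhK Γ`: the first two.
-/

set_option autoImplicit false

namespace Pool.Agent.Results.MP_16fe43_al.TestGroups

open Pool.Agent.U181.TG

/-- (1) The vanishing of the Whitehead group, of the reduced projective class group and of all negative
`K`-groups for all torsion-free groups is equivalent to the finitary statements `Finitary` and
`FinitarySplitting` for the class of all groups.
(2) Let `C` be the class of torsion-free groups, or any class of groups which contains `ℤ` and is closed
under subgroups and direct products. The restricted direct product `Test C` of the largest quotients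
`LQ C r S` in `C` of the finitely presented groups is a countable group in `C`, and the following are
equivalent: the three vanishing statements for all groups in `C`; the vanishing of the Whitehead group
and of the reduced projective class group for all groups `LQ C r S`; the same for the group `Test C`.
(3) The three vanishing statements hold for all limits of finite groups without small torsion if and
only if `Finitary` and `FinitarySplitting` hold for the class of finite groups. -/
theorem result :
    ((∀ (Γ : Type) [Group Γ], TorsionFree Γ → LowK Γ) ↔
      Finitary (fun _ _ => True) ∧ FinitarySplitting ℤ (fun _ _ => True)) ∧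
    ((ClosedSP (fun G _ => TorsionFree G) ∧ TorsionFree (Multiplicative ℤ)) ∧
      ∀ C : ∀ (G : Type) [Group G], Prop, ClosedSP C → C (Multiplicative ℤ) →
        (Countable (Test C) ∧ C (Test C)) ∧
        List.TFAE
          [∀ (Γ : Type) [Group Γ], C Γ → LowK Γ,
            ∀ (r : ℕ) (S : Finset (FreeGroup (Fin r))), WhK (LQ C r S),
            WhK (Test C)]) ∧
    ((∀ (Γ : Type) [Group Γ], IsLimit (fun G _ => Finite G) Γ → LowK Γ) ↔
      Finitary (fun G _ => Finite G) ∧ FinitarySplitting ℤ (fun G _ => Finite G)) := by
  refine ⟨lowK_all, ⟨⟨closedSP_torsionFree, ?_⟩, fun C hC hZ =>
    ⟨⟨countable_test, class_test hC⟩, whK_tfae hC hZ⟩⟩, lowK_finite⟩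
  have h1 : TorsionFree (Multiplicative ℤ × Unit) := torsionFree_prod fun g k _ _ => rfl
  intro g k hk hg
  exact congrArg Prod.fst (h1 (g, ()) k hk (Prod.ext hg rfl))

end Pool.Agent.Results.MP_16fe43_al.TestGroups
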