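import Pool.Agent.U385.RT.BSt

/-!
# Relations along the edges of graphs without triangles, and the vanishing of low K-groups

`C` and `N` are two classes of groups, `N` inside `C`, with the closure properties `Wald C N`: `N`
contains the trivial and the infinite cyclic group and is closed under free products, and `C` is
closed under amalgamated products and HNN extensions over groups in `N`, and under directed colimits.
By the theorems of Waldhausen (Algebraic K-theory of generalized free products, 1978) these properties
hold for `C` = the torsion-free groups `G` with `Wh(G × ℤⁿ) = 0` for all `n`, which implies that the
reduced projective class group and all negative K-groups of `ℤG` vanish (Bass-Heller-Swan), and `N` =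
the groups of `C` which are regular coherent (`RG` is regular coherent for every regular
noetherian ring `R`).

Let `V` be a set of any cardinality, with a linear order which only serves to name the edges, let `Γ`
be a graph without triangles on `V`, and let `G v` be groups in `N`. For each edge `u < v` let `R u v`
be any set of elements of the free product `G u * G v`, such that `G u` and `G v` embed in the
group of the edge `E(u, v) = (G u * G v) / ⟨⟨R u v⟩⟩` and meet trivially there (`TriFree`), and such that
`E(u, v)` is in `C`. Then the free product of all `G v` modulo all these relations is in `C`.

The main example: `D` is a set of arrows on `V`, directed cycles of length at least four are allowed,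
the underlying graph has no triangles, and there are no double arrows and no loops. Then the group with
generators `V` and relations `u v ^ p(u, v) u⁻¹ = v ^ q(u, v)` for the arrows `u → v`, with arbitrary
non-zero integers `p(u, v)`, `q(u, v)`, is in `C`. For the directed cycles of length at least four with
`p = 1`, `q = 2` these are the groups of Higman.

Outline of the proof. For a finite set `S` of vertices let `Q S` be the group with the generators and
relations in `S`. (III) For a vertex `b` and a set `K` of neighbours of `b`, the group `G b` and the
group `Q K`, which is a free product since `K` is independent, embed in `Q (K + b)` and meet trivially;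
this is proved by induction on `K`, from the normal form in the amalgamated products over `G b`.
(I), (II) By induction on `S`: independent subsets of `S` generate free products in `Q S`, and two
disjoint independent subsets, which may be joined by edges, generate subgroups which meet trivially.
In the induction step, for any `b` in `S`, `Q S` is the amalgamated product of `Q (S - b)` and `Q (K + b)`
over the free product `Q K`, where `K` is the set of neighbours of `b` in `S`; here the new points are the
lemmas `fp_inj`, `fp_base`, `fp_inr`: in an amalgamated product `A *_K B` subgroups `X` of `A` and `Y` of
`B` which meet `K` trivially generate their free product, which meets `K` trivially and meets `B` in `Y`.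
-/

set_option autoImplicit false

namespace Pool.Agent.Results.MP_16fe43_al.TriangleFreeAmalgams

open Pool.Agent.U385.RT (Wald TriFree oneRel bsRel tri_main bs_tri)

/-- Let `C` and `N` be classes of groups with the closure properties `Wald C N`. (1) Let `Γ` be a graph
without triangles on a linearly ordered set `V`, `G v` groups in `N`, and `R u v`, for the edges
`u < v`, sets of elements of `G u * G v`, such that the vertex groups embed in the edge groups
`(G u * G v) / ⟨⟨R u v⟩⟩` and meet trivially there (`TriFree`), and such that the edge groups are in `C`.
Then the free product of the `G v` modulo all these relations is in `C`. (2) Let `D` be a set of arrows on a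
set `V` without loops, double arrows and triangles; directed cycles are allowed. The group with
generators `V` and relations `u v ^ p(u, v) u⁻¹ = v ^ q(u, v)`, `u → v`, with non-zero integers
`p(u, v)`, `q(u, v)`, is in `C`. -/
theorem result (C N : ∀ (G : Type) [Group G], Prop) (hW : Wald C N) :
    (∀ (V : Type) [LinearOrder V] (Γ : SimpleGraph V) (G : V → Type) [∀ v, Group (G v)]
      (R : ∀ u v, Set (Monoid.Coprod (G u) (G v))), TriFree Γ R → (∀ v, N (G v)) →
        (∀ u v, u < v → Γ.Adj u v →
          C (Monoid.Coprod (G u) (G v) ⧸ Subgroup.normalClosure (R u v))) →
        C (Monoid.CoprodI G ⧸ Subgroup.normalClosure (oneRel Γ R))) ∧
    (∀ (V : Type) (D : V → V → Prop), (∀ u v, D u v → ¬ D v u) →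
      (∀ u v w, (D u v ∨ D v u) → (D v w ∨ D w v) → ¬ (D u w ∨ D w u)) →
      ∀ p q : V → V → ℤ, (∀ u v, D u v → p u v ≠ 0) → (∀ u v, D u v → q u v ≠ 0) →
        C (PresentedGroup (bsRel D p q))) :=
  ⟨fun _ _ _ _ _ _ h hN hE => tri_main hW h hN hE, fun _ D has htri p q hp hq =>
    bs_tri hW D has htri p q hp hq⟩

end Pool.Agent.Results.MP_16fe43_al.TriangleFreeAmalgams
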