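import Pool.Agent.U674.TI.Wh

/-!
# Whitehead groups and left ideals with two bases of trinomials

Let `A` be an invertible matrix over `ℤG`, `G` any group. Over the group ring of `G * F`, `F` a free
group of finite rank, there is a left ideal which has two bases of elements of the form `1 + a + b`,
`a, b ∈ G * F`, such that the transition matrix is `diag(g) (1, 0; C, A) diag(h)` with group elements
`g i`, `h i`; so it has the same class in the Whitehead group as `A`. Hence the vanishing of the
Whitehead groups of all torsion-free groups is equivalent to the statement that for torsion-free groups
two bases of a left ideal which consist of trinomials `1 + a + b` always differ by a matrix which is zero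
in the Whitehead group, and even to this statement for one countable torsion-free group. The vanishing
of all the groups `Wh(G)`, reduced `K₀(ℤG)`, `K_{-m}(ℤG)` for torsion-free groups `G` is equivalent to
this together with the stable freeness of the projective left ideals generated by trinomials.

Proof. Let `A` be of size `n`. In `M = (ℤG)^n ⊕ ℤG z` all elements whose last coordinate has an
augmentation congruent to `1` modulo `3` can be obtained from `z` and the `e_j + z` by the operation
`(x, y) ↦ -(g x + h y)`. So there is a finite set `V ⊆ M` of such elements which contains `z`, the
`e_j + z`, the elements `- 2 z - e_i` and `- 2 z - A_i` for the rows `A_i` of `A`, and for which the module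
of all `c ∈ (ℤG)^V` with `∑ c_v v = 0` has a basis of `q` trinomial relations `t + g x + h y`. Together
with the trinomials `[- 2 z - e_i] + 2 [z]`, and also together with the trinomials
`[- 2 z - A_i] + 2 [z]`, it is a basis of the module `K` of all `c` with `∑ c_v v ∈ (ℤG)^n ⊕ 0`. Let `y_v`,
`v ∈ V`, be a basis of `F`. By a representation of `G * F` by triangular matrices the map
`∑ c_v e_v ↦ ∑ c_v y_v` is injective on the extension of `K` to `G * F`. The trinomials are multiplied
on the left by `y_v⁻¹`.

This is the analogue for Whitehead groups of `MP_551055_al.TrinomialIdeals`, with the same library
(`Pool.Agent.U674.TI`). The definitions `WhZero`, `LowK` and the test group are those of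
`MP_16fe43_al.TestGroups` (`Pool.Agent.U181.TG`).
-/

set_option autoImplicit false

namespace Pool.Agent.Results.MP_16fe43_al.TrinomialBases

open Pool.Agent.U674.TI Pool.Agent.U181.TG

/-- (1) Every invertible matrix `A` over `ℤG`, `G` any group, is a transition matrix between two bases
of trinomials of a left ideal over `ℤ[G * F_k]`, in the sense of `IsTransition`, for all free groups
`F_k` of sufficiently large rank.
(2) `G₀ = TestGroup * F_ℕ` is a countable torsion-free group.
(3) The following are equivalent: the Whitehead groups of all torsion-free groups are trivial; for all
torsion-free groups `Γ` two bases of trinomials of a left ideal of `ℤΓ` differ by a matrix which is zero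
in the Whitehead group; the same for the group `G₀`.
(4) The following are equivalent: the Whitehead group, the reduced projective class group and the
negative `K`-groups of `ℤΓ` vanish for all torsion-free groups `Γ`; for all torsion-free groups `Γ` two
bases of trinomials of a left ideal differ by a matrix which is zero in the Whitehead group, and the
projective left ideals generated by finitely many trinomials are stably free; the same for `G₀`. -/
theorem result :
    (∀ (G : Type) [Group G] (n : ℕ) (A : (Matrix (Fin n) (Fin n) (MonoidAlgebra ℤ G))ˣ),
      ∃ m q : ℕ, ∀ (k : Type) (j : Fin m → k), Function.Injective j → IsTransition A.val k q) ∧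
    (Countable (GF TestGroup ℕ) ∧ TorsionFree (GF TestGroup ℕ)) ∧
    List.TFAE
      [∀ (Γ : Type) [Group Γ], TorsionFree Γ → WhZero Γ,
        ∀ (Γ : Type) [Group Γ], TorsionFree Γ → TrinomialBasesTrivial Γ,
        TrinomialBasesTrivial (GF TestGroup ℕ)] ∧
    List.TFAE
      [∀ (Γ : Type) [Group Γ], TorsionFree Γ → LowK Γ,
        ∀ (Γ : Type) [Group Γ], TorsionFree Γ → TrinomialBasesTrivial Γ ∧ TrinomialIdealsFree Γ,
        TrinomialBasesTrivial (GF TestGroup ℕ) ∧ TrinomialIdealsFree (GF TestGroup ℕ)] := by
  have := countable_testGroup
  exact ⟨fun G _ n A => main4 A,
    ⟨countable_GF TestGroup, torsionFree_GF' _ _ torsionFree_testGroup⟩, tfae_wh, tfae_low⟩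

end Pool.Agent.Results.MP_16fe43_al.TrinomialBases
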